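import Pool.Agent.N636.SF.All
import Pool.Agent.N636.SF.P_SANITY

/-!
A nonstandard model of Peano arithmetic without Solovay family whose functions change value at most
once (and, for every `g : ℕ → ℕ`, without Solovay family whose `n`-th function changes value at
most `g n` times).

Idea of the proof. Part I: there is a formula `D` such that for every set `r` of natural numbers
there is a model of PA in which `D` defines an element whose (standard) bits are given by `r`. Part
II: with the help of this element one gets, for `p = 1, 2, ...`, `Σ_{N0+p}` sentences
`stF p 1, stF p 2, ...` (saying that the state of level `p` is at least `j`), such that whenever all the
states of the levels above `p` are `0` and the state of level `p` is `j < J p`, there is another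
model in which the state of level `p` is `j + 1`, in which the states of the lower levels are the
same and in which all true `Σ_{N0+p}` sentences remain true. Part III: forcing with finite tuples of
elements of models of PA (and their complete types). A Solovay family has to show values of `t_n`,
`n = N0 + p`, which give the answer `the state is j` for each `j` in turn, because a value
which has been computed from the `(n-1)`-st jump of the model is preserved when the `Σ_n` facts are
preserved, and the state can be raised after the value has been shown.
-/

set_option autoImplicit false

namespace Pool.Agent.Results.MP_1378ec_lc.ManyChanges

open Pool.Agent.N636.SF

/-- For every `g : ℕ → ℕ` there is a nonstandard model `A` of Peano arithmetic with universe `ℕ`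
such that in every Solovay family for the theory of `A` relative to `A` there is a function `t n`
which changes its value more than `g n` times. (`g = 1`: no Solovay family for `Th(A)` relative to
`A` consists of functions changing value at most once.) -/
theorem result : ∀ g : ℕ → ℕ, ∃ A : Arith ℕ, IsPA ℕ ∧ (∃ x : ℕ, ∀ n, num ℕ n ≠ x) ∧
    ∀ t, SolovayFamily A t → ∃ n ≥ 1, (g n : ℕ∞) < (changes (t n)).encard := main

end Pool.Agent.Results.MP_1378ec_lc.ManyChanges
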